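import Mathlib
import Pool.Agent.H56.LinExt

namespace Pool.Agent.Results.MP_f1b527_co.Upper

open Finset

theorem D_zero (N n : ℕ) : Pool.Agent.H56.LinExt.D N (n : ℝ) 0 * n.factorial
    = (N.factorial : ℝ) * (N + n).factorial := by
  have := Pool.Agent.H56.LinExt.D_knot N 0 n
  simpa using this

theorem result (n k N : ℕ) (le : Fin n → Fin n → Prop)
    (_hrefl : ∀ a, le a a) (_hanti : ∀ a b, le a b → le b a → a = b)
    (_htrans : ∀ a b c, le a b → le b c → le a c)
    (hk : Nat.card {p : Fin n × Fin n // le p.1 p.2 ∧ p.1 ≠ p.2} = k) :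
    (Nat.card {σ : Equiv.Perm (Fin n) // ∀ a b, le a b → σ a ≤ σ b} : ℝ)
      * ∏ m ∈ Finset.Icc 1 N, (1 + (k : ℝ) / ((m : ℝ) * ((m : ℝ) + n))) ≤ (n.factorial : ℝ) := by
  classical
  have hb := Pool.Agent.H56.LinExt.main (fun a b : Fin n => le a b ∧ a ≠ b) N n univ (by simp)
  have hK : Pool.Agent.H56.LinExt.K (fun a b : Fin n => le a b ∧ a ≠ b) univ = k := by
    rw [← hk, Nat.card_eq_fintype_card, Fintype.card_subtype]
    unfold Pool.Agent.H56.LinExt.K
    rw [Finset.univ_product_univ]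
    congr 1
    ext p
    simp
  rw [hK] at hb
  have hle : Nat.card {σ : Equiv.Perm (Fin n) // ∀ a b, le a b → σ a ≤ σ b}
      ≤ (Pool.Agent.H56.LinExt.T (fun a b : Fin n => le a b ∧ a ≠ b) univ).card := by
    rw [Nat.card_eq_fintype_card, Fintype.card_subtype]
    apply Finset.card_le_card_of_injOn (fun σ a => (σ a : ℕ))
    · intro σ hσ
      have h := (Finset.mem_filter.1 (Finset.mem_coe.1 hσ)).2
      simp only [Pool.Agent.H56.LinExt.T, Finset.coe_filter, Fintype.mem_piFinset, Finset.mem_range,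
        Set.mem_ofPred_eq, Finset.mem_univ, not_true_eq_false, Finset.card_univ, Fintype.card_fin]
      refine ⟨fun a => (σ a).2, fun a h => h.elim, fun a _ => (σ a).2, fun a _ b _ e => ?_,
        fun a _ b _ e => ?_⟩
      · exact σ.injective (Fin.ext e)
      · exact lt_of_le_of_ne (h a b e.1) (fun e' => e.2 (σ.injective (Fin.ext e')))
    · intro σ _ τ _ h
      ext a
      exact congrFun h a
  have hn : (0 : ℝ) ≤ n := Nat.cast_nonneg n
  have hD0 : 0 < Pool.Agent.H56.LinExt.D N (n : ℝ) 0 :=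
    Pool.Agent.H56.LinExt.D_pos N hn (by linarith)
  have hprod : (∏ m ∈ Finset.Icc 1 N, (1 + (k : ℝ) / ((m : ℝ) * ((m : ℝ) + n))))
      * Pool.Agent.H56.LinExt.D N (n : ℝ) 0 = Pool.Agent.H56.LinExt.D N (n : ℝ) k := by
    unfold Pool.Agent.H56.LinExt.D
    rw [← Finset.Ico_add_one_right_eq_Icc, Finset.prod_Ico_eq_prod_range, add_tsub_cancel_right,
      ← prod_mul_distrib]
    refine prod_congr rfl fun i _ => ?_
    have : (0 : ℝ) ≤ i := Nat.cast_nonneg i
    push_cast
    field_simp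
    ring
  have hP : (0 : ℝ) ≤ ∏ m ∈ Finset.Icc 1 N, (1 + (k : ℝ) / ((m : ℝ) * ((m : ℝ) + n))) :=
    prod_nonneg fun i _ => by positivity
  have h1 : (Nat.card {σ : Equiv.Perm (Fin n) // ∀ a b, le a b → σ a ≤ σ b} : ℝ)
      ≤ (Pool.Agent.H56.LinExt.T (fun a b : Fin n => le a b ∧ a ≠ b) univ).card := by
    exact_mod_cast hle
  refine (mul_le_mul_of_nonneg_right h1 hP).trans ?_
  refine le_of_mul_le_mul_right ?_ hD0
  rw [mul_assoc, hprod, mul_comm (n.factorial : ℝ), D_zero]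
  exact hb

end Pool.Agent.Results.MP_f1b527_co.Upper
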